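import Pool.Agent.Lib.MP_2e793b_nt.Iface
import Pool.Agent.Lib.MP_6bc78b_nt.SW.Close
import Pool.Agent.Lib.MP_ba0fa5_ag.H92.Nmertp
import Pool.Agent.Lib.MP_ba0fa5_ag.H72.Nmert1

/-!
MP_2e793b_nt, module PHT: the primes with `PP a`, uniformly in `a` (from CHI and Siegel-Walfisz).
-/

set_option autoImplicit false

namespace Pool.Agent.Lib.MP_2e793b_nt.H06

open Finset ArithmeticFunction
open scoped Classical

theorem tele {Z : ℕ} (hZ : 3 ≤ Z) : 1 / (((Z : ℝ) + 1) * Real.log Z ^ 2) ≤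
    2 * (1 / Real.log Z - 1 / Real.log ((Z : ℝ) + 1)) := by
  have hz : (3 : ℝ) ≤ Z := by exact_mod_cast hZ
  have hu : 0 < Real.log (Z : ℝ) := Real.log_pos (by linarith)
  have hv : 0 < Real.log ((Z : ℝ) + 1) := Real.log_pos (by linarith)
  have h1 : 1 / ((Z : ℝ) + 1) ≤ Real.log ((Z : ℝ) + 1) - Real.log Z := by
    rw [← Real.log_div (by linarith) (by linarith)]
    have h2 := Real.one_sub_inv_le_log_of_pos (show (0 : ℝ) < ((Z : ℝ) + 1) / Z by positivity)
    refine le_trans (le_of_eq ?_) h2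
    rw [inv_div]
    field_simp
    ring
  have h2 : Real.log ((Z : ℝ) + 1) ≤ 2 * Real.log Z := by
    have h3 : Real.log ((Z : ℝ) + 1) ≤ Real.log ((Z : ℝ) ^ 2) :=
      Real.log_le_log (by linarith) (by nlinarith)
    rwa [Real.log_pow] at h3
  set u := Real.log (Z : ℝ)
  set v := Real.log ((Z : ℝ) + 1)
  have h3 : 1 / u - 1 / v = (v - u) / (u * v) := by
    field_simp
  rw [h3]
  have h4 : 1 / ((Z : ℝ) + 1) / (u * (2 * u)) ≤ (v - u) / (u * v) :=
    div_le_div₀ (le_trans (by positivity) h1) h1 (by positivity)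
      (mul_le_mul_of_nonneg_left h2 hu.le)
  refine le_trans (le_of_eq ?_) (mul_le_mul_of_nonneg_left h4 (by norm_num : (0 : ℝ) ≤ 2))
  field_simp

/-- partial summation for the nonprincipal characters -/
theorem char_range : ∃ C : ℝ, 0 ≤ C ∧ ∀ (q Y Z : ℕ) (χ : DirichletCharacter ℂ q), 1 ≤ q → 3 ≤ Y →
    Y ≤ Z → (q : ℝ) ≤ Real.log Y ^ 6 → χ ≠ 1 →
    ‖∑ n ∈ Ioc Y Z, χ (n : ZMod q) * ((Λ n / n : ℝ) : ℂ)‖ ≤ C := by
  obtain ⟨C, hC, hSW⟩ := Pool.Agent.Lib.MP_6bc78b_nt.SW.siegel_walfisz 6 2 (by norm_num)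
    (by norm_num)
  refine ⟨4 * C, by positivity, ?_⟩
  intro q Y Z χ hq hY hYZ hqY hχ
  have hy : (3 : ℝ) ≤ Y := by exact_mod_cast hY
  have hlogY1 : 1 ≤ Real.log (Y : ℝ) := by
    rw [Real.le_log_iff_exp_le (by linarith)]
    have := Real.exp_one_lt_d9
    linarith
  set S : ℕ → ℂ := fun N => ∑ n ∈ Icc 1 N, χ (n : ZMod q) * (Λ n : ℂ) with hS
  have hSb : ∀ N : ℕ, Y ≤ N → ‖S N / N‖ ≤ C / Real.log N ^ 2 := by
    intro N hN
    have hn : (Y : ℝ) ≤ N := by exact_mod_cast hN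
    have hl : Real.log (Y : ℝ) ≤ Real.log (N : ℝ) := Real.log_le_log (by linarith) hn
    have h1 := hSW N (by linarith) q hq ?_ χ hχ
    · rw [Nat.floor_natCast] at h1
      rw [norm_div, Complex.norm_natCast, div_le_iff₀ (by linarith)]
      refine h1.trans (le_of_eq ?_)
      rw [Real.rpow_neg (by linarith), Real.rpow_two]
      field_simp
    · rw [show (6 : ℝ) = ((6 : ℕ) : ℝ) by norm_num, Real.rpow_natCast]
      exact hqY.trans (pow_le_pow_left₀ (by linarith) hl 6)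
  have hmain : ∀ Z : ℕ, Y ≤ Z →
      ‖∑ n ∈ Ioc Y Z, χ (n : ZMod q) * ((Λ n / n : ℝ) : ℂ) - S Z / Z + S Y / Y‖ ≤
        2 * C * (1 / Real.log Y - 1 / Real.log Z) := by
    intro Z hZ
    induction Z, hZ using Nat.le_induction with
    | base => simp
    | succ N hN ih =>
      have hn : (Y : ℝ) ≤ N := by exact_mod_cast hN
      have hn0 : (N : ℂ) ≠ 0 := by
        have : N ≠ 0 := by omega
        exact_mod_cast this
      have hn1 : ((N : ℂ) + 1) ≠ 0 := by
        have : N + 1 ≠ 0 := by omega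
        exact_mod_cast this
      have hl : Real.log (Y : ℝ) ≤ Real.log (N : ℝ) := Real.log_le_log (by linarith) hn
      have e1 : S (N + 1) = S N + χ ((N + 1 : ℕ) : ZMod q) * (Λ (N + 1) : ℂ) := by
        simp only [hS]
        rw [Finset.sum_Icc_succ_top (by omega)]
      have e2 : ∑ n ∈ Ioc Y (N + 1), χ (n : ZMod q) * ((Λ n / n : ℝ) : ℂ) =
          ∑ n ∈ Ioc Y N, χ (n : ZMod q) * ((Λ n / n : ℝ) : ℂ) +
            χ ((N + 1 : ℕ) : ZMod q) * ((Λ (N + 1) / ((N + 1 : ℕ) : ℝ) : ℝ) : ℂ) := by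
        rw [Finset.sum_Ioc_succ_top hN]
      have e3 : ∑ n ∈ Ioc Y (N + 1), χ (n : ZMod q) * ((Λ n / n : ℝ) : ℂ) -
          S (N + 1) / ((N + 1 : ℕ) : ℂ) + S Y / Y =
          (∑ n ∈ Ioc Y N, χ (n : ZMod q) * ((Λ n / n : ℝ) : ℂ) - S N / N + S Y / Y) +
            S N / N * ((1 / ((N : ℝ) + 1) : ℝ) : ℂ) := by
        rw [e2, e1]
        push_cast
        field_simp
        ring
      rw [e3]
      refine (norm_add_le _ _).trans ?_
      have e4 : ‖S N / N * ((1 / ((N : ℝ) + 1) : ℝ) : ℂ)‖ ≤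
          2 * C * (1 / Real.log N - 1 / Real.log ((N + 1 : ℕ) : ℝ)) := by
        rw [norm_mul, Complex.norm_real, Real.norm_of_nonneg (by positivity)]
        have e5 := tele (show 3 ≤ N by omega)
        have e6 := mul_le_mul_of_nonneg_left e5 hC.le
        push_cast
        refine (mul_le_mul_of_nonneg_right (hSb N hN) (by positivity)).trans ?_
        refine le_trans (le_of_eq ?_) (e6.trans (le_of_eq ?_))
        · field_simp
        · ring
      linarith
  have h1 := hmain Z hYZ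
  have hz : (Y : ℝ) ≤ Z := by exact_mod_cast hYZ
  have hl : Real.log (Y : ℝ) ≤ Real.log (Z : ℝ) := Real.log_le_log (by linarith) hz
  have hlz : 0 < Real.log (Z : ℝ) := by linarith
  have hly : 0 < Real.log (Y : ℝ) := by linarith
  have h2 : C / Real.log Z ^ 2 ≤ C := by
    rw [div_le_iff₀ (by positivity)]
    nlinarith [one_le_pow₀ (show 1 ≤ Real.log (Z : ℝ) by linarith) (n := 2)]
  have h3 : C / Real.log Y ^ 2 ≤ C := by
    rw [div_le_iff₀ (by positivity)]
    nlinarith [one_le_pow₀ hlogY1 (n := 2)]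
  have h4 : 2 * C * (1 / Real.log Y - 1 / Real.log Z) ≤ 2 * C := by
    have h5 : 1 / Real.log (Y : ℝ) ≤ 1 := by
      rw [div_le_one (by linarith)]
      exact hlogY1
    have h6 : 0 ≤ 1 / Real.log (Z : ℝ) := by
      have : 0 ≤ Real.log (Z : ℝ) := by linarith
      positivity
    nlinarith
  have e : ∑ n ∈ Ioc Y Z, χ (n : ZMod q) * ((Λ n / n : ℝ) : ℂ) =
      (∑ n ∈ Ioc Y Z, χ (n : ZMod q) * ((Λ n / n : ℝ) : ℂ) - S Z / Z + S Y / Y) +
        (S Z / Z - S Y / Y) := by ring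
  rw [e]
  refine (norm_add_le _ _).trans ?_
  have h7 := norm_sub_le (S Z / Z) (S Y / Y)
  have h8 := hSb Z hYZ
  have h9 := hSb Y le_rfl
  linarith

/-- the function detecting `PP a` -/
noncomputable def fA (a : ℤ) (q n : ℕ) : ℝ :=
  if n.Coprime q then
    (1 - ((ZMod.χ₄ (n : ZMod 4) : ℤ) : ℝ)) * (1 - ((jacobiSym a n : ℤ) : ℝ)) / 4 else 0

theorem fA_mem (a : ℤ) (q n : ℕ) : 0 ≤ fA a q n ∧ fA a q n ≤ 1 := by
  rw [fA]
  split_ifs with h
  · rcases ZMod.isQuadratic_χ₄ (n : ZMod 4) with h1 | h1 | h1 <;>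
      rcases jacobiSym.trichotomy a n with h2 | h2 | h2 <;> rw [h1, h2] <;> norm_num
  · norm_num

theorem fA_le (a : ℤ) (n : ℕ) (hn : n.Prime) :
    fA a (4 * a.natAbs) n ≤ if PP a n then 1 else 0 := by
  by_cases hc : n.Coprime (4 * a.natAbs)
  · have h4 : n.Coprime 4 := Nat.Coprime.coprime_mul_right_right hc
    have ha : n.Coprime a.natAbs := Nat.Coprime.coprime_mul_left_right hc
    have hodd : n % 2 = 1 := by
      rcases Nat.mod_two_eq_zero_or_one n with h | h
      · exfalso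
        have h2 : 2 ∣ n := Nat.dvd_of_mod_eq_zero h
        have h3 : 2 ∣ n.gcd 4 := Nat.dvd_gcd h2 (by norm_num)
        rw [h4] at h3
        norm_num at h3
      · exact h
    rw [fA, if_pos hc]
    have hJ : jacobiSym a n ≠ 0 := by
      intro h0
      have : NeZero n := ⟨hn.ne_zero⟩
      apply jacobiSym.eq_zero_iff_not_coprime.mp h0
      rw [Int.gcd_comm]
      exact ha
    have h13 : n % 4 = 1 ∨ n % 4 = 3 := by omega
    rcases h13 with h | h
    · rw [ZMod.χ₄_nat_one_mod_four h]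
      split_ifs <;> norm_num
    · rw [ZMod.χ₄_nat_three_mod_four h]
      rcases jacobiSym.trichotomy a n with h2 | h2 | h2
      · exact absurd h2 hJ
      · rw [h2]
        split_ifs <;> norm_num
      · rw [h2, if_pos ⟨hn, h, h2⟩]
        norm_num
  · rw [fA, if_neg hc]
    split_ifs <;> norm_num

theorem fA_eq (a : ℤ) (q : ℕ) (α β : DirichletCharacter ℂ q)
    (hα : ∀ n : ℕ, n.Coprime q → α (n : ZMod q) = ((ZMod.χ₄ (n : ZMod 4) : ℤ) : ℂ))
    (hβ : ∀ n : ℕ, n.Coprime q → β (n : ZMod q) = ((jacobiSym a n : ℤ) : ℂ)) (n : ℕ) :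
    ((fA a q n : ℝ) : ℂ) = (((if n.Coprime q then (1 : ℝ) else 0 : ℝ) : ℂ) -
      α (n : ZMod q) - β (n : ZMod q) + (α * β) (n : ZMod q)) / 4 := by
  rw [fA, MulChar.mul_apply]
  split_ifs with h
  · rw [hα n h, hβ n h]
    push_cast
    ring
  · have hu : ¬ IsUnit (n : ZMod q) := by
      rwa [ZMod.isUnit_iff_coprime]
    rw [MulChar.map_nonunit _ hu, MulChar.map_nonunit _ hu]
    simp

theorem pht_core (C₀ C₁ C₂ : ℝ) (hC₀ : 0 ≤ C₀)
    (hcr : ∀ (q Y Z : ℕ) (χ : DirichletCharacter ℂ q), 1 ≤ q → 3 ≤ Y →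
      Y ≤ Z → (q : ℝ) ≤ Real.log Y ^ 6 → χ ≠ 1 →
      ‖∑ n ∈ Ioc Y Z, χ (n : ZMod q) * ((Λ n / n : ℝ) : ℂ)‖ ≤ C₀)
    (hC₁ : ∀ y : ℕ, 1 ≤ y → |∑ l ∈ (Icc 1 y).filter Nat.Prime, Real.log l / l - Real.log y| ≤ C₁)
    (hC₂ : ∀ N : ℕ, ∑ d ∈ (Icc 1 N).filter (fun d => ¬ d.Prime), Λ d / d ≤ C₂)
    (a : ℤ) (Y Z : ℕ) (hY : 3 ≤ Y) (hYZ : Y ≤ Z) (q : ℕ) (hqdef : q = 4 * a.natAbs) (hq1 : 1 ≤ q)
    (hqr : (q : ℝ) ≤ Real.log Y ^ 6) (α β : DirichletCharacter ℂ q)
    (hα1 : α ≠ 1) (hβ1 : β ≠ 1)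
    (hα : ∀ n : ℕ, n.Coprime q → α (n : ZMod q) = ((ZMod.χ₄ (n : ZMod 4) : ℤ) : ℂ))
    (hβ : ∀ n : ℕ, n.Coprime q → β (n : ZMod q) = ((jacobiSym a n : ℤ) : ℂ)) :
    1 / 4 * (Real.log Z - Real.log Y) - ((2 * C₁ + 6 + 3 * C₀) / 4 + C₂) ≤
      ∑ p ∈ (Ioc Y Z).filter (fun p => PP a p), Real.log p / p := by
  have hyr : (3 : ℝ) ≤ Y := by exact_mod_cast hY
  set E := Ioc Y Z with hE
  have hL0 : ∀ n : ℕ, 0 ≤ Λ n / (n : ℝ) := fun n =>
    div_nonneg vonMangoldt_nonneg (Nat.cast_nonneg n)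
  -- (A)
  have hA : ∑ n ∈ E.filter Nat.Prime, fA a q n * (Λ n / n) ≤
      ∑ p ∈ E.filter (fun p => PP a p), Real.log p / p := by
    have e1 : ∑ p ∈ E.filter (fun p => PP a p), Real.log p / p =
        ∑ n ∈ E.filter Nat.Prime, (if PP a n then (1 : ℝ) else 0) * (Λ n / n) := by
      have e2 : E.filter (fun p => PP a p) = (E.filter Nat.Prime).filter (fun p => PP a p) := by
        ext l
        rw [mem_filter, mem_filter, mem_filter]
        constructor
        · rintro ⟨b1, b2⟩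
          exact ⟨⟨b1, b2.1⟩, b2⟩
        · rintro ⟨⟨b1, -⟩, b2⟩
          exact ⟨b1, b2⟩
      rw [e2, Finset.sum_filter]
      apply Finset.sum_congr rfl
      intro n hn
      rw [mem_filter] at hn
      rw [vonMangoldt_apply_prime hn.2]
      split_ifs <;> simp
    rw [e1]
    apply Finset.sum_le_sum
    intro n hn
    rw [mem_filter] at hn
    exact mul_le_mul_of_nonneg_right (hqdef ▸ fA_le a n hn.2) (hL0 n)
  -- (B)
  have hB : ∑ n ∈ E, fA a q n * (Λ n / n) - C₂ ≤ ∑ n ∈ E.filter Nat.Prime, fA a q n * (Λ n / n) := by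
    rw [← Finset.sum_filter_add_sum_filter_not E Nat.Prime (fun n => fA a q n * (Λ n / n))]
    have e1 : ∑ n ∈ E.filter (fun n => ¬ n.Prime), fA a q n * (Λ n / n) ≤ C₂ := by
      calc ∑ n ∈ E.filter (fun n => ¬ n.Prime), fA a q n * (Λ n / n)
          ≤ ∑ n ∈ E.filter (fun n => ¬ n.Prime), Λ n / n := by
            apply Finset.sum_le_sum
            intro n _
            have := (fA_mem a q n).2
            exact mul_le_of_le_one_left (hL0 n) this
        _ ≤ ∑ n ∈ (Icc 1 Z).filter (fun n => ¬ n.Prime), Λ n / n := by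
            apply Finset.sum_le_sum_of_subset_of_nonneg
            · apply Finset.filter_subset_filter
              intro n hn
              rw [hE, mem_Ioc] at hn
              rw [mem_Icc]
              omega
            · intro n _ _
              exact hL0 n
        _ ≤ C₂ := hC₂ Z
    linarith
  -- (C)
  set S : DirichletCharacter ℂ q → ℂ := fun χ =>
    ∑ n ∈ E, χ (n : ZMod q) * ((Λ n / n : ℝ) : ℂ) with hS
  set S0 : ℝ := ∑ n ∈ E, (if n.Coprime q then (1 : ℝ) else 0) * (Λ n / n) with hS0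
  have hC : ∑ n ∈ E, fA a q n * (Λ n / n) =
      (S0 - (S α).re - (S β).re + (S (α * β)).re) / 4 := by
    have e1 : ((∑ n ∈ E, fA a q n * (Λ n / n) : ℝ) : ℂ) =
        ((S0 : ℂ) - S α - S β + S (α * β)) / 4 := by
      simp only [hS, hS0]
      push_cast
      rw [← Finset.sum_sub_distrib, ← Finset.sum_sub_distrib, ← Finset.sum_add_distrib,
        Finset.sum_div]
      apply Finset.sum_congr rfl
      intro n _
      rw [fA_eq a q α β hα hβ n]
      ring
    have e2 := congrArg Complex.re e1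
    rw [Complex.ofReal_re] at e2
    rw [e2]
    have e3 : ((S0 : ℂ) - S α - S β + S (α * β)) / 4 =
        ((S0 : ℂ) - S α - S β + S (α * β)) / ((4 : ℝ) : ℂ) := by norm_num
    rw [e3, Complex.div_ofReal_re]
    simp
  have hα2 : (S α).re ≤ C₀ := (Complex.re_le_norm _).trans (hcr q Y Z α hq1 hY hYZ hqr hα1)
  have hβ2 : (S β).re ≤ C₀ := (Complex.re_le_norm _).trans (hcr q Y Z β hq1 hY hYZ hqr hβ1)
  have hαβ : -C₀ ≤ (S (α * β)).re := by
    by_cases h1 : α * β = 1
    · rw [h1]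
      refine le_trans (by linarith : -C₀ ≤ 0) ?_
      simp only [hS]
      rw [Complex.re_sum]
      apply Finset.sum_nonneg
      intro n _
      rw [Complex.re_mul_ofReal]
      apply mul_nonneg _ (hL0 n)
      by_cases hu : IsUnit (n : ZMod q)
      · rw [MulChar.one_apply hu]
        norm_num
      · rw [MulChar.map_nonunit _ hu]
        norm_num
    · have h2 := Complex.abs_re_le_norm (S (α * β))
      have h3 := hcr q Y Z (α * β) hq1 hY hYZ hqr h1
      have h4 := neg_abs_le (S (α * β)).re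
      have h5 : ‖S (α * β)‖ ≤ C₀ := h3
      linarith
  -- (D)
  have hD : ∑ n ∈ E.filter Nat.Prime, Λ n / n - 6 ≤ S0 := by
    have e1 : ∑ n ∈ E.filter Nat.Prime, Λ n / n =
        ∑ n ∈ E.filter Nat.Prime, (if n.Coprime q then (1 : ℝ) else 0) * (Λ n / n) +
          ∑ n ∈ E.filter Nat.Prime, (if n.Coprime q then (0 : ℝ) else 1) * (Λ n / n) := by
      rw [← Finset.sum_add_distrib]
      apply Finset.sum_congr rfl
      intro n _
      split_ifs <;> ring
    have e2 : ∑ n ∈ E.filter Nat.Prime, (if n.Coprime q then (1 : ℝ) else 0) * (Λ n / n) ≤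
        S0 := by
      apply Finset.sum_le_sum_of_subset_of_nonneg (Finset.filter_subset _ _)
      intro n _ _
      apply mul_nonneg _ (hL0 n)
      split_ifs <;> norm_num
    have e3 : ∑ n ∈ E.filter Nat.Prime, (if n.Coprime q then (0 : ℝ) else 1) * (Λ n / n) ≤
        6 := by
      have e4 : ∑ n ∈ E.filter Nat.Prime, (if n.Coprime q then (0 : ℝ) else 1) * (Λ n / n) ≤
          ∑ n ∈ E.filter Nat.Prime, (if n.Coprime q then (0 : ℝ) else 1) * (Λ n / Y) := by
        apply Finset.sum_le_sum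
        intro n hn
        rw [mem_filter, hE, mem_Ioc] at hn
        have : (Y : ℝ) ≤ n := by exact_mod_cast hn.1.1.le
        apply mul_le_mul_of_nonneg_left
        · exact div_le_div_of_nonneg_left vonMangoldt_nonneg (by linarith) this
        · split_ifs <;> norm_num
      have e5 : ∑ n ∈ E.filter Nat.Prime, (if n.Coprime q then (0 : ℝ) else 1) * (Λ n / Y) ≤
          ∑ n ∈ q.divisors, Λ n / Y := by
        have e6 : ∑ n ∈ E.filter Nat.Prime, (if n.Coprime q then (0 : ℝ) else 1) * (Λ n / Y) =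
            ∑ n ∈ (E.filter Nat.Prime).filter (fun n => ¬ n.Coprime q), Λ n / Y := by
          rw [Finset.sum_filter (s := E.filter Nat.Prime) (fun n : ℕ => ¬ n.Coprime q)]
          apply Finset.sum_congr rfl
          intro n _
          by_cases hc : n.Coprime q
          · rw [if_pos hc, if_neg (not_not.mpr hc), zero_mul]
          · rw [if_neg hc, if_pos hc, one_mul]
        rw [e6]
        apply Finset.sum_le_sum_of_subset_of_nonneg
        · intro n hn
          rw [mem_filter, mem_filter] at hn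
          rw [Nat.mem_divisors]
          refine ⟨?_, by omega⟩
          by_contra hnd
          exact hn.2 ((Nat.Prime.coprime_iff_not_dvd hn.1.2).mpr hnd)
        · intro n _ _
          exact div_nonneg vonMangoldt_nonneg (Nat.cast_nonneg _)
      have e7 : ∑ n ∈ q.divisors, Λ n / Y ≤ 6 := by
        rw [← Finset.sum_div, vonMangoldt_sum, div_le_iff₀ (by linarith)]
        have hly : 0 < Real.log (Y : ℝ) := Real.log_pos (by linarith)
        have h1 : Real.log (q : ℝ) ≤ Real.log (Real.log Y ^ 6) :=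
          Real.log_le_log (by exact_mod_cast hq1) hqr
        rw [Real.log_pow] at h1
        have h2 : Real.log (Real.log Y) ≤ Real.log Y :=
          (Real.log_le_sub_one_of_pos hly).trans (by linarith)
        have h3 : Real.log (Y : ℝ) ≤ Y :=
          (Real.log_le_sub_one_of_pos (by linarith)).trans (by linarith)
        push_cast at h1
        linarith
      linarith
    linarith
  -- (E)
  have hEE : Real.log Z - Real.log Y - 2 * C₁ ≤ ∑ n ∈ E.filter Nat.Prime, Λ n / n := by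
    have e1 : ∑ n ∈ E.filter Nat.Prime, Λ n / n =
        ∑ n ∈ E.filter Nat.Prime, Real.log n / n := by
      apply Finset.sum_congr rfl
      intro n hn
      rw [mem_filter] at hn
      rw [vonMangoldt_apply_prime hn.2]
    have e2 : ∑ n ∈ (Icc 1 Z).filter Nat.Prime, Real.log n / n =
        ∑ n ∈ (Icc 1 Y).filter Nat.Prime, Real.log n / n +
          ∑ n ∈ E.filter Nat.Prime, Real.log n / n := by
      rw [← Finset.sum_union]
      · apply Finset.sum_congr _ (fun _ _ => rfl)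
        ext n
        simp only [hE, mem_union, mem_filter, mem_Icc, mem_Ioc]
        constructor
        · rintro ⟨⟨h1, h2⟩, h3⟩
          rcases Nat.lt_or_ge Y n with h4 | h4
          · exact Or.inr ⟨⟨h4, h2⟩, h3⟩
          · exact Or.inl ⟨⟨h1, h4⟩, h3⟩
        · rintro (⟨⟨h1, h2⟩, h3⟩ | ⟨⟨h1, h2⟩, h3⟩)
          · exact ⟨⟨h1, by omega⟩, h3⟩
          · exact ⟨⟨by omega, h2⟩, h3⟩
      · rw [Finset.disjoint_left]
        intro n h1 h2
        simp only [hE, mem_filter, mem_Icc, mem_Ioc] at h1 h2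
        omega
    have h1 := (abs_le.mp (hC₁ Z (by omega))).1
    have h2 := (abs_le.mp (hC₁ Y (by omega))).2
    rw [e1]
    linarith
  linarith

theorem pht (hchi : ChiStmt) : PhtStmt := by
  obtain ⟨C₀, hC₀, hcr⟩ := char_range
  obtain ⟨C₁, hC₁⟩ := Pool.Agent.Lib.MP_ba0fa5_ag.H72.nmert1
  obtain ⟨C₂, hC₂0, hC₂⟩ := Pool.Agent.Lib.MP_ba0fa5_ag.H92.sum_not_prime
  refine ⟨1 / 4, (2 * C₁ + 6 + 3 * C₀) / 4 + C₂, 3, by norm_num, ?_⟩
  intro a Y Z hY hYZ ha hsq hq
  obtain ⟨β, hβ1, hβ⟩ := hchi a ha hsq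
  obtain ⟨α, hα⟩ := Pool.Agent.Lib.MP_ba0fa5_ag.H92.lift_char
    (Dvd.intro (a.natAbs) rfl : 4 ∣ 4 * a.natAbs) ZMod.χ₄
  have hna : 1 ≤ a.natAbs := Int.natAbs_pos.mpr ha
  have hα1 : α ≠ 1 := by
    have hcop : (4 * a.natAbs - 1).Coprime (4 * a.natAbs) := by
      have h1 : 4 * a.natAbs - 1 + 1 = 4 * a.natAbs := by omega
      have h2 : (4 * a.natAbs - 1).Coprime (4 * a.natAbs - 1 + 1) := by simp
      rwa [h1] at h2
    apply Pool.Agent.Lib.MP_ba0fa5_ag.H92.char_ne_one α hcop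
    rw [hα _ hcop, ZMod.χ₄_nat_three_mod_four (by omega)]
    norm_num
  exact pht_core C₀ C₁ C₂ hC₀ hcr hC₁ hC₂ a Y Z hY hYZ (4 * a.natAbs) rfl (by omega)
    (by push_cast; exact hq) α β hα1 hβ1 hα hβ

end Pool.Agent.Lib.MP_2e793b_nt.H06
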