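import Pool.Agent.Lib.MP_2e793b_nt.Iface
import Pool.Agent.Lib.MP_ba0fa5_ag.AA.H30.FLU
import Pool.Agent.Lib.MP_ba0fa5_ag.AA.H30.SELB
import Pool.Agent.Lib.MP_ba0fa5_ag.AA.H54.Rankb
import Pool.Agent.Lib.MP_ba0fa5_ag.AA.H15.Vbnd
import Pool.Agent.Lib.MP_ba0fa5_ag.AA.H15.Recg
import Pool.Agent.Lib.MP_ba0fa5_ag.H72.Nmert1

/-!
MP_2e793b_nt, module SIEV: the sieve bound (from PHLOW).
-/

set_option autoImplicit false

namespace Pool.Agent.Lib.MP_2e793b_nt.H06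

open Finset Filter Asymptotics
open scoped Classical
open Pool.Agent.Lib.MP_ba0fa5_ag.AA (primesIn VV)

theorem ev_t (B y₀ : ℕ) (hB : 2 ≤ B) (K c : ℝ) (hc : 0 < c) (hK : 0 ≤ K) :
    ∀ᶠ t : ℝ in atTop, (y₀ : ℝ) + 5 ≤ t ∧ t ^ 2 ≤ Real.exp (1 / (2 * B) * t) ∧
      2 ≤ Real.exp (1 / (2 * B) * t) ∧
      K * (4 * B * Real.log t / t) ^ (1 + c) ≤ t ^ (-(1 + c / 2)) := by
  have hB0 : (0 : ℝ) < B := by exact_mod_cast (by omega : 0 < B)
  have hb : (0 : ℝ) < 1 / (2 * B) := by positivity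
  have h1 : ∀ᶠ t : ℝ in atTop, t ^ 2 ≤ Real.exp (1 / (2 * B) * t) := by
    filter_upwards [(isLittleO_pow_exp_pos_mul_atTop (k := 2) hb).bound
      (show (0 : ℝ) < 1 by norm_num)] with t ht
    rw [Real.norm_of_nonneg (sq_nonneg t), Real.norm_of_nonneg (Real.exp_pos _).le, one_mul] at ht
    exact ht
  have h2 : ∀ᶠ t : ℝ in atTop, (K * (4 * B) ^ (1 + c) + 1) * Real.log t ^ (1 + c) ≤
      t ^ (c / 2) := by
    have hk : 0 < K * (4 * B) ^ (1 + c) + 1 := by positivity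
    filter_upwards [(isLittleO_log_rpow_rpow_atTop (s := c / 2) (1 + c) (by positivity)).bound
      (show (0 : ℝ) < 1 / (K * (4 * B) ^ (1 + c) + 1) by positivity), eventually_ge_atTop 3]
      with t ht ht3
    have h3 : 0 ≤ Real.log t := Real.log_nonneg (by linarith)
    rw [Real.norm_of_nonneg (Real.rpow_nonneg h3 _),
      Real.norm_of_nonneg (Real.rpow_nonneg (by linarith) _), div_mul_eq_mul_div, one_mul,
      le_div_iff₀ hk] at ht
    linarith
  filter_upwards [h1, h2, eventually_ge_atTop ((y₀ : ℝ) + 5)] with t h1 h2 h3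
  have hy0 : (0 : ℝ) ≤ y₀ := Nat.cast_nonneg _
  have ht0 : 0 < t := by linarith
  have hlt : 0 ≤ Real.log t := Real.log_nonneg (by linarith)
  refine ⟨h3, h1, ?_, ?_⟩
  · refine le_trans ?_ h1
    nlinarith
  · have h4 : t ^ (-(1 + c / 2)) = t ^ (c / 2) * t ^ (-(1 + c)) := by
      rw [← Real.rpow_add ht0]
      congr 1
      ring
    rw [h4, Real.div_rpow (by positivity) ht0.le, Real.mul_rpow (by positivity) hlt,
      Real.rpow_neg ht0.le, div_eq_mul_inv, ← mul_assoc]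
    apply mul_le_mul_of_nonneg_right _ (inv_nonneg.mpr (Real.rpow_nonneg ht0.le _))
    have h5 : 0 ≤ Real.log t ^ (1 + c) := Real.rpow_nonneg hlt _
    linarith

theorem ev_siev (B y₀ : ℕ) (hB : 2 ≤ B) (K c : ℝ) (hc : 0 < c) (hK : 0 ≤ K) :
    ∃ X₀ : ℕ, ∀ X : ℕ, X₀ ≤ X → 1 ≤ X ∧ 5 ≤ Real.log X ∧ y₀ ≤ yy X ∧ 4 ≤ yy X ∧
      yy X ≤ zz B X ∧ zz B X ^ B ≤ X ∧ Real.log (Real.log X) ≤ Real.log (yy X) ∧
      Real.log (yy X) ≤ 2 * Real.log (Real.log X) ∧
      Real.log X / (2 * B) ≤ Real.log (zz B X) ∧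
      K * (4 * B * Real.log (Real.log X) / Real.log X) ^ (1 + c) ≤
        Real.log X ^ (-(1 + c / 2)) := by
  have hev : ∀ᶠ X : ℕ in atTop, (y₀ : ℝ) + 5 ≤ Real.log X ∧
      Real.log X ^ 2 ≤ Real.exp (1 / (2 * B) * Real.log X) ∧
      2 ≤ Real.exp (1 / (2 * B) * Real.log X) ∧
      K * (4 * B * Real.log (Real.log X) / Real.log X) ^ (1 + c) ≤
        Real.log X ^ (-(1 + c / 2)) :=
    (Real.tendsto_log_atTop.comp tendsto_natCast_atTop_atTop).eventually (ev_t B y₀ hB K c hc hK)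
  obtain ⟨X₀, hX₀⟩ := eventually_atTop.mp hev
  refine ⟨max X₀ 1, ?_⟩
  intro X hX
  obtain ⟨h1, h2, h3, h4⟩ := hX₀ X (le_trans (le_max_left _ _) hX)
  have hX1 : 1 ≤ X := le_trans (le_max_right _ _) hX
  have hB0 : (0 : ℝ) < B := by exact_mod_cast (by omega : 0 < B)
  have hx0 : (0 : ℝ) < X := by exact_mod_cast hX1
  have hy0 : (0 : ℝ) ≤ y₀ := Nat.cast_nonneg _
  set t := Real.log X with ht
  have ht5 : 5 ≤ t := by linarith
  have e1 : t ^ 2 - 1 < (yy X : ℝ) := by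
    have := Nat.lt_floor_add_one (t ^ 2)
    rw [yy]
    linarith
  have e2 : (yy X : ℝ) ≤ t ^ 2 := Nat.floor_le (sq_nonneg t)
  have e3 : t ≤ (yy X : ℝ) := by nlinarith
  have e4 : (X : ℝ) ^ ((1 : ℝ) / B) = Real.exp (1 / (2 * B) * t) ^ 2 := by
    rw [← Real.exp_nat_mul, Real.rpow_def_of_pos hx0]
    congr 1
    push_cast
    field_simp
    ring
  have e5 : Real.exp (1 / (2 * B) * t) ^ 2 - 1 < (zz B X : ℝ) := by
    have := Nat.lt_floor_add_one ((X : ℝ) ^ ((1 : ℝ) / B))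
    rw [zz, ← e4]
    linarith
  have e6 : Real.exp (1 / (2 * B) * t) ≤ (zz B X : ℝ) := by nlinarith
  have e7 : (zz B X : ℝ) ≤ (X : ℝ) ^ ((1 : ℝ) / B) := Nat.floor_le (Real.rpow_nonneg hx0.le _)
  refine ⟨hX1, ht5, ?_, ?_, ?_, ?_, ?_, ?_, ?_, h4⟩
  · exact_mod_cast (by linarith : (y₀ : ℝ) ≤ (yy X : ℝ))
  · exact_mod_cast (by linarith : (4 : ℝ) ≤ (yy X : ℝ))
  · exact_mod_cast (by linarith : (yy X : ℝ) ≤ (zz B X : ℝ))
  · have h5 : ((zz B X : ℝ)) ^ B ≤ X := by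
      calc ((zz B X : ℝ)) ^ B ≤ ((X : ℝ) ^ ((1 : ℝ) / B)) ^ B :=
            pow_le_pow_left₀ (Nat.cast_nonneg _) e7 B
        _ = X := by
            rw [← Real.rpow_natCast, ← Real.rpow_mul hx0.le, one_div, inv_mul_cancel₀ hB0.ne',
              Real.rpow_one]
    exact_mod_cast h5
  · exact Real.log_le_log (by linarith) e3
  · have h5 : Real.log (yy X) ≤ Real.log (t ^ 2) := Real.log_le_log (by linarith) e2
    rwa [Real.log_pow] at h5
  · have h5 : Real.log (Real.exp (1 / (2 * B) * t)) ≤ Real.log (zz B X) :=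
      Real.log_le_log (Real.exp_pos _) e6
    rw [Real.log_exp] at h5
    refine le_trans (le_of_eq ?_) h5
    ring

theorem siev (h1 : PhlowStmt) : SievStmt := by
  obtain ⟨c₁, C₁, y₀, hc₁, hph⟩ := h1
  obtain ⟨B₀, c, C, hc, hC, hF⟩ := Pool.Agent.Lib.MP_ba0fa5_ag.AA.H30.flu
    Pool.Agent.Lib.MP_ba0fa5_ag.AA.H30.selb
    (Pool.Agent.Lib.MP_ba0fa5_ag.AA.H54.rankb Pool.Agent.Lib.MP_ba0fa5_ag.H72.nmert1)
    (Pool.Agent.Lib.MP_ba0fa5_ag.AA.H15.vbnd Pool.Agent.Lib.MP_ba0fa5_ag.AA.H15.recg)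
  obtain ⟨c₂, C₂, hc₂, hC₂, hV⟩ :=
    Pool.Agent.Lib.MP_ba0fa5_ag.AA.H15.vbnd Pool.Agent.Lib.MP_ba0fa5_ag.AA.H15.recg
  have hB : 2 ≤ max B₀ 2 := le_max_right _ _
  set B := max B₀ 2 with hBdef
  obtain ⟨X₀, hX₀⟩ := ev_siev B y₀ hB ((1 + C) * 2 * C₂ * Real.exp C₁) c₁ hc₁ (by positivity)
  refine ⟨B, X₀, c₁ / 2, hB, by positivity, ?_⟩
  intro X a Ω hX ha hsq hlog hΩ
  obtain ⟨hX1, ht5, hy0, hy4, hyz, hzB, hly, hly2, hlz, hfin⟩ := hX₀ X hX
  have hB0 : (0 : ℝ) < B := by exact_mod_cast (by omega : 0 < B)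
  have hxr : (1 : ℝ) ≤ X := by exact_mod_cast hX1
  set t := Real.log X with ht
  set Y := yy X with hY
  set Z := zz B X with hZ
  have hs0 : 0 < Real.log t := Real.log_pos (by linarith)
  have hlogY : 0 < Real.log Y := lt_of_lt_of_le hs0 hly
  have hlogZ : 0 < Real.log Z := lt_of_lt_of_le (by positivity) hlz
  set P := primesIn Y Z with hP
  have hmemP : ∀ l ∈ P, l.Prime ∧ Y < l ∧ l ≤ Z := by
    intro l hl
    rw [hP, primesIn, mem_filter, mem_Ioc] at hl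
    exact ⟨hl.2, hl.1.1, hl.1.2⟩
  have hcard : ∀ l ∈ P, 1 ≤ (Ω l).card ∧ (Ω l).card ≤ 2 := by
    intro l hl
    obtain ⟨a1, a2, a3⟩ := hmemP l hl
    obtain ⟨-, b2, b3⟩ := hΩ l a1 a2 a3
    by_cases hpp : PP a l
    · rw [b2 hpp]
      omega
    · rw [b3 hpp]
      omega
  -- the sieve
  have hcount : (((range (X + 1)).filter
      (fun q => ∀ l : ℕ, l.Prime → Y < l → l ≤ Z → q % l ∉ Ω l)).card : ℝ) ≤
      (1 + C * Real.exp (-c * (Real.log ((X + 1 : ℕ) : ℝ) / Real.log Z))) * ((X + 1 : ℕ) : ℝ) *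
        ∏ l ∈ P, (1 - ((Ω l).card : ℝ) / l) := by
    refine le_trans ?_ (hF Z (X + 1) (by omega) ?_ P Ω ?_)
    · apply Nat.cast_le.mpr
      apply card_le_card
      intro q hq
      rw [mem_filter] at hq ⊢
      refine ⟨hq.1, fun l hl => ?_⟩
      obtain ⟨a1, a2, a3⟩ := hmemP l hl
      exact hq.2 l a1 a2 a3
    · calc Z ^ B₀ ≤ Z ^ B := Nat.pow_le_pow_right (by omega) (le_max_left _ _)
        _ ≤ X + 1 := by omega
    · intro l hl
      obtain ⟨a1, a2, a3⟩ := hmemP l hl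
      exact ⟨a1, by omega, a3, (hΩ l a1 a2 a3).1, (hcard l hl).1, (hcard l hl).2⟩
  -- the product
  have hprod : ∏ l ∈ P, (1 - ((Ω l).card : ℝ) / l) ≤
      VV Y Z * Real.exp (-∑ p ∈ (Ioc Y Z).filter (fun p => PP a p), (1 : ℝ) / p) := by
    have e1 : Real.exp (-∑ p ∈ (Ioc Y Z).filter (fun p => PP a p), (1 : ℝ) / p) =
        ∏ l ∈ P, (if PP a l then Real.exp (-(1 / (l : ℝ))) else 1) := by
      rw [← Finset.prod_filter, ← Finset.sum_neg_distrib, Real.exp_sum]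
      apply Finset.prod_congr _ (fun _ _ => rfl)
      ext l
      rw [hP, primesIn, mem_filter, mem_filter, mem_filter]
      constructor
      · rintro ⟨b1, b2⟩
        exact ⟨⟨b1, b2.1⟩, b2⟩
      · rintro ⟨⟨b1, -⟩, b2⟩
        exact ⟨b1, b2⟩
    rw [e1, VV, ← Finset.prod_mul_distrib]
    apply Finset.prod_le_prod
    · intro l hl
      obtain ⟨a1, a2, a3⟩ := hmemP l hl
      have h5 : (5 : ℝ) ≤ l := by exact_mod_cast (by omega : 5 ≤ l)
      have h6 : ((Ω l).card : ℝ) ≤ 2 := by exact_mod_cast (hcard l hl).2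
      rw [sub_nonneg, div_le_one (by linarith)]
      linarith
    · intro l hl
      obtain ⟨a1, a2, a3⟩ := hmemP l hl
      have h5 : (5 : ℝ) ≤ l := by exact_mod_cast (by omega : 5 ≤ l)
      obtain ⟨-, b2, b3⟩ := hΩ l a1 a2 a3
      by_cases hpp : PP a l
      · rw [b2 hpp, if_pos hpp]
        have h6 : 1 - 1 / (l : ℝ) ≤ Real.exp (-(1 / (l : ℝ))) := by
          have := Real.add_one_le_exp (-(1 / (l : ℝ)))
          linarith
        have h7 : 0 ≤ 1 - 1 / (l : ℝ) := by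
          rw [sub_nonneg, div_le_one (by linarith)]
          linarith
        have h8 : (1 - 1 / (l : ℝ)) * (1 - 1 / (l : ℝ)) ≤
            (1 - 1 / (l : ℝ)) * Real.exp (-(1 / (l : ℝ))) := mul_le_mul_of_nonneg_left h6 h7
        refine le_trans ?_ h8
        have h9 : ((2 : ℕ) : ℝ) / (l : ℝ) = 2 * (1 / (l : ℝ)) := by
          push_cast
          ring
        rw [h9]
        nlinarith [sq_nonneg (1 / (l : ℝ))]
      · rw [b3 hpp, if_neg hpp, Nat.cast_one, mul_one]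
  have hVV : VV Y Z ≤ C₂ * Real.log Y / Real.log Z := (hV Y Z (by omega) hyz).2
  have hVV0 : 0 ≤ VV Y Z := by
    rw [VV]
    apply Finset.prod_nonneg
    intro l hl
    obtain ⟨a1, a2, a3⟩ := hmemP l hl
    have h5 : (5 : ℝ) ≤ l := by exact_mod_cast (by omega : 5 ≤ l)
    rw [sub_nonneg, div_le_one (by linarith)]
    linarith
  have hsum := hph a Y Z hy0 hyz ha hsq (hlog.trans (pow_le_pow_left₀ hs0.le hly 6))
  have hr0 : 0 < Real.log Y / Real.log Z := div_pos hlogY hlogZ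
  have hexp : Real.exp (-∑ p ∈ (Ioc Y Z).filter (fun p => PP a p), (1 : ℝ) / p) ≤
      Real.exp C₁ * (Real.log Y / Real.log Z) ^ c₁ := by
    rw [Real.rpow_def_of_pos hr0, ← Real.exp_add]
    apply Real.exp_le_exp.mpr
    have h5 : Real.log (Real.log Y / Real.log Z) = -Real.log (Real.log Z / Real.log Y) := by
      rw [← Real.log_inv, inv_div]
    rw [h5]
    linarith
  have hprod2 : ∏ l ∈ P, (1 - ((Ω l).card : ℝ) / l) ≤
      C₂ * Real.exp C₁ * (Real.log Y / Real.log Z) ^ (1 + c₁) := by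
    refine hprod.trans ?_
    refine (mul_le_mul hVV hexp (Real.exp_pos _).le (hVV0.trans hVV)).trans (le_of_eq ?_)
    rw [Real.rpow_add hr0, Real.rpow_one]
    ring
  have hratio : Real.log Y / Real.log Z ≤ 4 * B * Real.log t / t := by
    rw [div_le_div_iff₀ hlogZ (by linarith)]
    have h5 : t ≤ 2 * B * Real.log Z := by
      rw [div_le_iff₀ (by positivity)] at hlz
      linarith
    calc Real.log Y * t ≤ 2 * Real.log t * (2 * B * Real.log Z) :=
          mul_le_mul hly2 h5 (by linarith) (by positivity)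
      _ = 4 * B * Real.log t * Real.log Z := by ring
  have hpow : (Real.log Y / Real.log Z) ^ (1 + c₁) ≤ (4 * B * Real.log t / t) ^ (1 + c₁) :=
    Real.rpow_le_rpow hr0.le hratio (by positivity)
  have hE : (1 + C * Real.exp (-c * (Real.log ((X + 1 : ℕ) : ℝ) / Real.log Z))) ≤ 1 + C := by
    have h5 : Real.exp (-c * (Real.log ((X + 1 : ℕ) : ℝ) / Real.log Z)) ≤ 1 := by
      apply Real.exp_le_one_iff.mpr
      have h6 : 0 ≤ Real.log ((X + 1 : ℕ) : ℝ) / Real.log Z :=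
        div_nonneg (Real.log_nonneg (by push_cast; linarith)) hlogZ.le
      nlinarith
    nlinarith
  have hX2 : ((X + 1 : ℕ) : ℝ) ≤ 2 * X := by
    push_cast
    linarith
  calc (((range (X + 1)).filter
      (fun q => ∀ l : ℕ, l.Prime → Y < l → l ≤ Z → q % l ∉ Ω l)).card : ℝ)
      ≤ (1 + C * Real.exp (-c * (Real.log ((X + 1 : ℕ) : ℝ) / Real.log Z))) *
        ((X + 1 : ℕ) : ℝ) * ∏ l ∈ P, (1 - ((Ω l).card : ℝ) / l) := hcount
    _ ≤ ((1 + C) * (2 * X)) * (C₂ * Real.exp C₁ * (4 * B * Real.log t / t) ^ (1 + c₁)) := by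
        apply mul_le_mul (mul_le_mul hE hX2 (by positivity) (by positivity)) _ _ (by positivity)
        · exact hprod2.trans (mul_le_mul_of_nonneg_left hpow (by positivity))
        · apply Finset.prod_nonneg
          intro l hl
          obtain ⟨a1, a2, a3⟩ := hmemP l hl
          have h5 : (5 : ℝ) ≤ l := by exact_mod_cast (by omega : 5 ≤ l)
          have h6 : ((Ω l).card : ℝ) ≤ 2 := by exact_mod_cast (hcard l hl).2
          rw [sub_nonneg, div_le_one (by linarith)]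
          linarith
    _ = X * ((1 + C) * 2 * C₂ * Real.exp C₁ * (4 * B * Real.log t / t) ^ (1 + c₁)) := by ring
    _ ≤ X * t ^ (-(1 + c₁ / 2)) := mul_le_mul_of_nonneg_left hfin (by linarith)
    _ = X / t ^ (1 + c₁ / 2) := by
        rw [Real.rpow_neg (by linarith)]
        exact (div_eq_mul_inv _ _).symm

end Pool.Agent.Lib.MP_2e793b_nt.H06
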