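import Pool.Agent.Lib.MP_2e793b_nt.H06.Iface6
import Pool.Agent.Lib.MP_ba0fa5_ag.AA.H38.Mertap
import Pool.Agent.Lib.MP_ba0fa5_ag.H72.Nmert1

/-!
# PAP: primes in a progression, lower bound
-/

set_option autoImplicit false

namespace Pool.Agent.Mor.H06

open Finset Pool.Agent.Mor
open Pool.Agent.Lib.MP_ba0fa5_ag Pool.Agent.Lib.MP_ba0fa5_ag.AA

/-- PAP -/
theorem pap : PapS := by
  intro q a hq ha
  obtain ⟨C, hC⟩ := Pool.Agent.Lib.MP_ba0fa5_ag.AA.H38.mertap
    Pool.Agent.Lib.MP_ba0fa5_ag.H72.nmert1 q hq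
  have hphi : (0 : ℝ) < q.totient := by exact_mod_cast Nat.totient_pos.mpr hq
  -- the number `K`
  obtain ⟨K, hK⟩ := exists_nat_gt (Real.exp ((2 * C + 1) * q.totient))
  have hK0 : (0 : ℝ) < K := (Real.exp_pos _).trans hK
  have hK1 : 1 ≤ K := by exact_mod_cast hK0
  have hKlog : 2 * C + 1 ≤ Real.log K / q.totient := by
    rw [le_div_iff₀ hphi]
    have := Real.log_le_log (Real.exp_pos _) hK.le
    rwa [Real.log_exp] at this
  refine ⟨1 / (4 * K), by positivity, 4 * K + 4, fun X hX => ?_⟩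
  set y := X - 1 with hy
  set w := y / K with hw
  have hyX : (X : ℝ) / 2 ≤ y := by
    have : X ≤ 2 * y := by omega
    have : (X : ℝ) ≤ 2 * y := by exact_mod_cast this
    linarith
  have hw1 : 1 ≤ w := by
    rw [hw, Nat.one_le_div_iff (by omega)]
    omega
  have hwy : w ≤ y := Nat.div_le_self _ _
  have hKw : (K : ℝ) * w ≤ y := by
    have : K * w ≤ y := Nat.mul_div_le y K
    exact_mod_cast this
  have hw0 : (0 : ℝ) < w := by exact_mod_cast hw1
  have hy0 : (0 : ℝ) < y := by
    have : 0 < y := by omega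
    exact_mod_cast this
  have h1 := abs_le.mp (hC a y ha (by omega))
  have h2 := abs_le.mp (hC a w ha hw1)
  set S := (range X).filter (fun p : ℕ => p.Prime ∧ p ≡ a [MOD q]) with hS
  -- the sum over `(w, y]`
  set T := (Ioc w y).filter (fun l : ℕ => l.Prime ∧ l ≡ a [MOD q]) with hT
  have hsplit : (Icc 1 y).filter (fun l : ℕ => l.Prime ∧ l ≡ a [MOD q]) =
      (Icc 1 w).filter (fun l : ℕ => l.Prime ∧ l ≡ a [MOD q]) ∪ T := by
    ext l
    simp only [mem_filter, mem_union, mem_Icc, hT, mem_Ioc]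
    constructor
    · rintro ⟨⟨h3, h4⟩, h5⟩
      by_cases h6 : l ≤ w
      · exact Or.inl ⟨⟨h3, h6⟩, h5⟩
      · exact Or.inr ⟨⟨by omega, h4⟩, h5⟩
    · rintro (⟨⟨h3, h4⟩, h5⟩ | ⟨⟨h3, h4⟩, h5⟩)
      · exact ⟨⟨h3, by omega⟩, h5⟩
      · exact ⟨⟨by omega, h4⟩, h5⟩
  have hdisj : Disjoint ((Icc 1 w).filter (fun l : ℕ => l.Prime ∧ l ≡ a [MOD q])) T := by
    rw [disjoint_left]
    intro l h3 h4
    have h5 := (mem_Icc.mp (mem_filter.mp h3).1).2
    have h6 := (mem_Ioc.mp (mem_filter.mp h4).1).1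
    omega
  rw [hsplit, sum_union hdisj] at h1
  have hsum : (1 : ℝ) ≤ ∑ l ∈ T, Real.log l / l := by
    have h3 : Real.log K ≤ Real.log y - Real.log w := by
      have h4 : Real.log (K * w) ≤ Real.log y := Real.log_le_log (by positivity) hKw
      rw [Real.log_mul hK0.ne' hw0.ne'] at h4
      linarith
    have h5 : Real.log K / q.totient ≤ Real.log y / q.totient - Real.log w / q.totient := by
      rw [← sub_div]
      exact div_le_div_of_nonneg_right h3 hphi.le
    linarith [h1.1, h2.2]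
  have hlogy : 0 < Real.log y := by
    apply Real.log_pos
    have : 2 ≤ y := by omega
    have : (2 : ℝ) ≤ y := by exact_mod_cast this
    linarith
  have hterm : ∑ l ∈ T, Real.log l / l ≤ T.card * (Real.log y / w) := by
    rw [← nsmul_eq_mul]
    apply sum_le_card_nsmul
    intro l hl
    have h3 := mem_Ioc.mp (mem_filter.mp hl).1
    have h4 : (0 : ℝ) < l := by
      have : 0 < l := by omega
      exact_mod_cast this
    apply div_le_div₀ hlogy.le
    · exact Real.log_le_log h4 (by exact_mod_cast h3.2)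
    · exact hw0
    · exact_mod_cast h3.1.le
  have hTS : T.card ≤ S.card := by
    apply card_le_card
    intro l hl
    rw [hS, mem_filter, mem_range]
    have h3 := mem_Ioc.mp (mem_filter.mp hl).1
    exact ⟨by omega, (mem_filter.mp hl).2⟩
  have hcard : (w : ℝ) / Real.log y ≤ S.card := by
    have h3 : 1 ≤ (T.card : ℝ) * (Real.log y / w) := hsum.trans hterm
    have h4 : (T.card : ℝ) ≤ S.card := by exact_mod_cast hTS
    rw [div_le_iff₀ hlogy]
    have h5 : (w : ℝ) ≤ T.card * Real.log y := by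
      rw [mul_div_assoc', le_div_iff₀ hw0] at h3
      linarith
    nlinarith
  have hwbig : (X : ℝ) / (4 * K) ≤ w := by
    have h3 : y < K * (w + 1) := by
      rw [hw]
      exact Nat.lt_mul_div_succ y (by omega)
    have h4 : (y : ℝ) < K * (w + 1) := by exact_mod_cast h3
    have h5 : (4 * K + 4 : ℝ) ≤ X := by exact_mod_cast hX
    rw [div_le_iff₀ (by positivity)]
    nlinarith
  have hlogX : Real.log y ≤ Real.log X := by
    apply Real.log_le_log hy0
    have : y ≤ X := by omega
    exact_mod_cast this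
  calc 1 / (4 * (K : ℝ)) * X / Real.log X = (X : ℝ) / (4 * K) / Real.log X := by ring
    _ ≤ w / Real.log y := div_le_div₀ hw0.le hwbig hlogy hlogX
    _ ≤ S.card := hcard

end Pool.Agent.Mor.H06
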