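import Mathlib

/-!
# MP_2e793b_nt: statements of the sieve chapter (good primes) and of the word chapter.
Namespace Pool.Agent.Mor. Proofs in `Paper6.md`.
-/

set_option autoImplicit false

namespace Pool.Agent.Mor

open Finset

/-! ## 1. Sums of two squares -/

/-- The pairs of natural numbers with `u ^ 2 + v ^ 2 = s`. -/
def reps (s : ℕ) : Finset (ℕ × ℕ) :=
  (range (s + 1) ×ˢ range (s + 1)).filter fun x => x.1 ^ 2 + x.2 ^ 2 = s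

/-- Their number. -/
def r2 (s : ℕ) : ℕ := (reps s).card

/-- R2P: representations and divisors. -/
def R2pS : Prop := ∀ s : ℕ, 1 ≤ s →
  r2 s ≤ 2 * ∑ g ∈ (Icc 1 s).filter (fun g => g ^ 2 ∣ s), (s / g ^ 2).divisors.card

/-- RHO: roots of `M x² + h` modulo `e`. -/
def RhoS : Prop := ∀ e M h : ℕ, 1 ≤ e → 1 ≤ M → 1 ≤ h →
  ((range e).filter fun x => e ∣ M * x ^ 2 + h).card ≤ 2 * e.divisors.card * M * h

/-- AVG: the average of `r2 (M Q² + h)`. Uses R2P, RHO. -/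
def AvgS : Prop := ∃ C : ℝ, 0 < C ∧ ∀ X M h : ℕ, 1 ≤ X → 1 ≤ M → 1 ≤ h →
  (∑ Q ∈ range X, (r2 (M * Q ^ 2 + h) : ℝ)) ≤ C * (M * h : ℝ) ^ 3 * X * (1 + Real.log X) ^ 6

/-! ## 2. The sieve -/

/-- JCH: the Jacobi symbol as a Dirichlet character. -/
def JchS : Prop := ∀ a : ℤ, a ≠ 0 → ∃ χ : DirichletCharacter ℂ (4 * a.natAbs),
  (∀ p : ℕ, p.Prime → p ≠ 2 → χ (p : ZMod (4 * a.natAbs)) = ((jacobiSym a p : ℤ) : ℂ)) ∧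
  (¬ IsSquare a → χ ≠ 1)

/-- PCS: sums of a character over primes. Uses Siegel-Walfisz. -/
def PcsS : Prop := ∀ A : ℝ, 0 < A → ∃ C : ℝ, ∀ (q : ℕ) (χ : DirichletCharacter ℂ q), 1 ≤ q →
  χ ≠ 1 → ∀ y z : ℕ, 3 ≤ y → y ≤ z → (q : ℝ) ≤ Real.log y ^ A →
    ‖∑ p ∈ (Ioc y z).filter Nat.Prime, χ (p : ZMod q) / (p : ℂ)‖ ≤ C

/-- PRE: reciprocals of primes. -/
def PreS : Prop := ∃ C : ℝ, ∀ y z : ℕ, 3 ≤ y → y ≤ z →
  |∑ p ∈ (Ioc y z).filter Nat.Prime, (1 : ℝ) / p - Real.log (Real.log z / Real.log y)| ≤ C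

/-- PHS: the primes `p = 3 mod 4` with `(a / p) = -1`. Uses JCH, PCS, PRE. -/
def PhsS : Prop := ∀ A : ℝ, 0 < A → ∃ C : ℝ, ∀ a : ℤ, a ≠ 0 → ¬ IsSquare a → ∀ y z : ℕ,
  3 ≤ y → y ≤ z → |(a : ℝ)| ≤ Real.log y ^ A →
    1 / 4 * Real.log (Real.log z / Real.log y) - C ≤
      ∑ p ∈ (Ioc y z).filter (fun p => p.Prime ∧ p % 4 = 3 ∧ jacobiSym a p = -1), (1 : ℝ) / p

/-- The roots of `M x² + h` modulo `p`. -/
def rts (M : ℕ) (h : ℤ) (p : ℕ) : Finset ℕ :=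
  (range p).filter fun r : ℕ => (p : ℤ) ∣ (M : ℤ) * (r : ℤ) ^ 2 + h

/-- `M q² + h` is a sum of two squares. -/
def Two (M : ℕ) (h : ℤ) (q : ℕ) : Prop := ∃ u v : ℤ, u ^ 2 + v ^ 2 = (M : ℤ) * (q : ℤ) ^ 2 + h

/-- ROO: roots modulo `p` and `p²`. -/
def RooS : Prop := ∀ (M p : ℕ) (h : ℤ), p.Prime → p % 4 = 3 → jacobiSym (M * h) p = -1 →
  (rts M h p).card = 2 ∧ 0 ∉ rts M h p ∧
  (∀ q : ℕ, Two M h q → (p : ℤ) ∣ (M : ℤ) * (q : ℤ) ^ 2 + h →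
    ((p : ℤ) ^ 2) ∣ (M : ℤ) * (q : ℤ) ^ 2 + h) ∧
  ∀ X : ℕ, ((range X).filter fun q : ℕ => ((p : ℤ) ^ 2) ∣ (M : ℤ) * (q : ℤ) ^ 2 + h).card ≤
    2 * (X / p ^ 2 + 1)

open Classical in
/-- SVA: for few primes `q` is `M q² + h` a sum of two squares. Uses PHS, PRE, ROO and Selberg's
sieve. -/
def SvaS : Prop := ∀ A : ℝ, 0 < A → ∃ X₀ : ℕ, ∀ X : ℕ, X₀ ≤ X → ∀ (M : ℕ) (h : ℤ), 1 ≤ M →
  h ≠ 0 → (M : ℝ) * |(h : ℝ)| ≤ Real.log (Real.log X) ^ A → ¬ IsSquare ((M : ℤ) * h) →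
    (((range X).filter fun q : ℕ => q.Prime ∧ Two M h q).card : ℝ) ≤
      X / Real.log X ^ (9 / 8 : ℝ)

/-- PAP: primes in a progression, lower bound. -/
def PapS : Prop := ∀ q a : ℕ, 1 ≤ q → a.Coprime q → ∃ c : ℝ, 0 < c ∧ ∃ X₀ : ℕ, ∀ X : ℕ,
  X₀ ≤ X → c * X / Real.log X ≤
    (((range X).filter fun p : ℕ => p.Prime ∧ p ≡ a [MOD q]).card : ℝ)

/-- GP: good primes. Uses AVG, SVA, PAP. -/
def GpS : Prop := ∀ T b : ℕ, 1 ≤ T → 2 ≤ b → ∃ H₀ : ℕ, ∀ H m : ℕ, H₀ ≤ H → 1 ≤ m → m ≤ H ^ 4 →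
  (∀ h : ℕ, 0 < h → h ≤ H → ¬ IsSquare (h * m)) →
    ∃ q : ℕ, q.Prime ∧ q % (4 * T) = 4 * T - 1 ∧ H < m * q ^ 2 ∧
      (∀ k, r2 k ≠ 0 → k ≠ m * q ^ 2 → k + H < m * q ^ 2 ∨ m * q ^ 2 + H < k) ∧
      ∀ h, H < h → r2 (m * q ^ 2 + h) ^ (4 * T) ≤ b ^ h

/-! ## 3. Words -/

/-- The iterates of a morphism. -/
def itw {k : ℕ} (σ : Fin k → List (Fin k)) (n : ℕ) (l : List (Fin k)) : List (Fin k) :=
  (fun l : List (Fin k) => l.flatMap σ)^[n] l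

/-- A letter of bounded growth. -/
def Bd {k : ℕ} (σ : Fin k → List (Fin k)) (x : Fin k) : Prop :=
  ∃ K : ℕ, ∀ n, (itw σ n [x]).length ≤ K

/-- The word `C₀ E₁^m C₁ ⋯ E_l^m C_l`. -/
def blk {A : Type} (C0 : List A) (L : List (List A × List A)) (m : ℕ) : List A :=
  C0 ++ L.flatMap fun x => (List.replicate m x.1).flatten ++ x.2

/-- `P` followed by the first `m` blocks. -/
def pre {A : Type} (P C0 : List A) (L : List (List A × List A)) : ℕ → List A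
  | 0 => P
  | m + 1 => pre P C0 L m ++ blk C0 L m

/-- UNB: unbounded letters grow at least linearly. -/
def UnbS : Prop := ∀ (k : ℕ) (σ : Fin k → List (Fin k)) (x : Fin k), ¬ Bd σ x →
  ∀ n : ℕ, n ≤ k * (itw σ n [x]).length

open Classical in
/-- SKE: under quadratic growth the number of unbounded letters is bounded. Uses UNB. -/
def SkeS : Prop := ∀ (k : ℕ) (σ : Fin k → List (Fin k)) (a : Fin k) (w : List (Fin k)) (K : ℕ),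
  σ a = a :: w → (∀ n, (itw σ n [a]).length ≤ K * (n + 1) ^ 2) →
    ∃ K' : ℕ, ∀ n, ((itw σ n w).filter fun x => ¬ Bd σ x).length ≤ K'

/-- POW: a power of the morphism in normal form. Uses SKE. -/
def PowS : Prop := ∀ (k : ℕ) (σ : Fin k → List (Fin k)) (a : Fin k) (w : List (Fin k)) (K : ℕ),
  σ a = a :: w → (∀ n, (itw σ n [a]).length ≤ K * (n + 1) ^ 2) →
    ∃ p : ℕ, 1 ≤ p ∧ (∀ x, Bd σ x → itw σ (2 * p) [x] = itw σ p [x]) ∧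
      ∀ n y, y ∈ itw σ (n + p) w → ¬ Bd σ y → ∃ α β : List (Fin k),
        itw σ p [y] = α ++ y :: β ∧ (∀ x ∈ α, Bd σ x) ∧ ∀ x ∈ β, Bd σ x

/-- NF: the normal form of a morphic word of quadratic growth. Uses POW. -/
def NfS : Prop := ∀ (k : ℕ) (σ : Fin k → List (Fin k)) (a : Fin k) (u : ℕ → Fin k) (K : ℕ),
  (∀ (n i : ℕ) (x : Fin k), (itw σ n [a])[i]? = some x → u i = x) →
  (∀ m : ℕ, ∃ n : ℕ, m < (itw σ n [a]).length) →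
  (∀ n, (itw σ n [a]).length ≤ K * (n + 1) ^ 2) →
    ∃ (P C0 : List (Fin k)) (L : List (List (Fin k) × List (Fin k))),
      (∀ (m i : ℕ) (x : Fin k), (pre P C0 L m)[i]? = some x → u i = x) ∧
      ∀ m, m ≤ (pre P C0 L m).length

/-- SER: from digits to `∑ C(U) b ^ (-⌊U²/T⌋)`. -/
def SerS : Prop := ∀ (k : ℕ) (u : ℕ → Fin k) (P C0 : List (Fin k))
  (L : List (List (Fin k) × List (Fin k))) (τ : Fin k → ℤ) (ξ : ℝ) (b : ℕ), 2 ≤ b →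
  Irrational ξ → (∀ n : ℕ, τ (u n) = ⌊ξ * (b : ℝ) ^ (n + 1)⌋ % (b : ℤ)) →
  (∀ (m i : ℕ) (x : Fin k), (pre P C0 L m)[i]? = some x → u i = x) →
  (∀ m, m ≤ (pre P C0 L m).length) →
    ∃ (T : ℕ) (C : ℕ → ℤ) (D : ℤ) (R : ℚ), 1 ≤ T ∧ (∀ U, C (U + T) = C U) ∧ D ≠ 0 ∧
      (D : ℝ) * ξ = R + ∑' U : ℕ, (C (U + 1) : ℝ) * ((b : ℝ)⁻¹) ^ ((U + 1) ^ 2 / T)

/-- FIN: the theorem. -/
def FinS : Prop := ∀ ξ : ℝ, Irrational ξ →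
  (∃ A B C : ℤ, A ≠ 0 ∧ (A : ℝ) * ξ ^ 2 + B * ξ + C = 0) → ∀ b : ℕ, 2 ≤ b →
    ¬ ∃ (k : ℕ) (σ : Fin k → List (Fin k)) (a : Fin k) (u : ℕ → Fin k) (τ : Fin k → ℤ) (K : ℕ),
      (∀ n, ((fun l : List (Fin k) => l.flatMap σ)^[n] [a]).length ≤ K * (n + 1) ^ 2) ∧
      (∀ (n i : ℕ) (x : Fin k),
          ((fun l : List (Fin k) => l.flatMap σ)^[n] [a])[i]? = some x → u i = x) ∧
      (∀ m : ℕ, ∃ n : ℕ, m < ((fun l : List (Fin k) => l.flatMap σ)^[n] [a]).length) ∧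
      ∀ n : ℕ, τ (u n) = ⌊ξ * (b : ℝ) ^ (n + 1)⌋ % (b : ℤ)

end Pool.Agent.Mor
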